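import Pool.Agent.Helper6.OB.Goals

set_option autoImplicit false

namespace Pool.Agent.Helper92.OB

open Pool.Agent.Helper6.CS Pool.Agent.Helper6.OB
open Pool.Agent.Helper41.CS (Vx OOW limW len_app get_app_lt get_app_ge app_assoc len_nil nil_app
  app_nil len_sg get_sg over_nil over_app over_sg len_sub get_sub sub_app over_sub sub_eq_self
  sub_sg_self bdd_words code_fun len_isub get_isub isub_app isub_over isub_left isub_var)

set_option synthInstance.maxSize 1000000000

theorem t_MN0 : Pool.Agent.Helper6.OB.G_MN0 := by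
  intro M _ a b H G Φ g hH hg L r β l
  obtain ⟨e, he⟩ := ev_exists (fun _ : M => (Cod.cd (Wd.nil M) : M)) 1
  refine ⟨0, fun χ _ => Or.inr ⟨e, ?_, ?_⟩⟩
  · intro i hi
    have h0 : dec (ev e i) = Wd.nil M := by
      rw [he i (lt_of_le_of_lt hi zero_lt_one), dec_cd]
    rw [h0]
    exact ⟨over_nil _, (len_nil (M := M)).le, fun q _ _ => by rw [app_nil]⟩
  · intro i j hij hj
    exact absurd (lt_of_lt_of_le hij hj) (not_lt_of_ge (World.zero_le' _))

end Pool.Agent.Helper92.OB
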